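import Pool.Agent.PCO.StmtsA

/-!
# PCO squad (MP_e54c4c_gt), row TRF: what is small at the start stays small
-/

set_option autoImplicit false

open Matrix Filter Topology

namespace Pool.Agent.PCO.H70

open Pool.Agent.PFS Pool.Agent.PFJ

theorem two_sided {n : ℕ} {C : Set (V n)} (h : PCone C) {q0 : V n} (hq : q0 ∈ C) :
    ∃ b : ℝ, 0 < b ∧ ∀ y : V n, (b * ‖y‖) • q0 + y ∈ closure C ∧
      (b * ‖y‖) • q0 - y ∈ closure C := by
  obtain ⟨r, hr, hball⟩ := Metric.isOpen_iff.mp h.isOpen q0 hq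
  refine ⟨2 / r, by positivity, ?_⟩
  have key : ∀ y : V n, (2 / r * ‖y‖) • q0 + y ∈ closure C := by
    intro y
    rcases eq_or_ne y 0 with hy | hy
    · rw [hy, norm_zero, mul_zero, zero_smul, add_zero]
      exact h.zero_cl
    · have hyp : 0 < ‖y‖ := norm_pos_iff.mpr hy
      have h1 : q0 + (r / (2 * ‖y‖)) • y ∈ C := by
        apply hball
        rw [Metric.mem_ball, dist_eq_norm, add_sub_cancel_left, norm_smul,
          Real.norm_of_nonneg (by positivity)]
        have : r / (2 * ‖y‖) * ‖y‖ = r / 2 := by field_simp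
        rw [this]; linarith
      have h2 := h.smul _ h1 (2 / r * ‖y‖) (by positivity)
      rw [smul_add, smul_smul] at h2
      have h3 : 2 / r * ‖y‖ * (r / (2 * ‖y‖)) = 1 := by field_simp
      rw [h3, one_smul] at h2
      exact subset_closure h2
  intro y
  refine ⟨key y, ?_⟩
  have := key (-y)
  rwa [norm_neg, ← sub_eq_add_neg] at this

theorem trf : TrfStmt := by
  intro n C Γ hCC q0 p P g s hq hP hg hs hT
  have h : PCone C := hCC.toPCone
  obtain ⟨b, hb, hbC⟩ := two_sided h hq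
  obtain ⟨B0, hB0, hN⟩ := h.normal
  obtain ⟨D, hD⟩ := hT.norm.bddAbove_range
  have hD' : ∀ m, ‖s m • act (g m) (P m)‖ ≤ D := fun m => hD ⟨m, rfl⟩
  have hD0 : 0 ≤ D := (norm_nonneg _).trans (hD' 0)
  have hact : ∀ m, ∀ x ∈ closure C, s m • act (g m) x ∈ closure C := fun m x hx =>
    h.cl_smul_pos ((hCC.act_cl_iff (hg m)).mpr hx) (hs m)
  have first : ∀ (m : ℕ) (y : V n),
      ‖s m • act (g m) y‖ ≤ (2 * B0 * b * D + b * D + 1) * ‖y‖ := by
    intro m y
    obtain ⟨hy1, hy2⟩ := hbC y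
    have hc : 0 ≤ b * ‖y‖ := by positivity
    have e1 : (b * ‖y‖) • P m + y ∈ closure C := by
      have := h.cl_add (h.cl_smul (hP m) hc) hy1
      have e : (b * ‖y‖) • (P m - q0) + ((b * ‖y‖) • q0 + y) = (b * ‖y‖) • P m + y := by
        rw [smul_sub]; abel
      rwa [e] at this
    have e2 : (b * ‖y‖) • P m - y ∈ closure C := by
      have := h.cl_add (h.cl_smul (hP m) hc) hy2
      have e : (b * ‖y‖) • (P m - q0) + ((b * ‖y‖) • q0 - y) = (b * ‖y‖) • P m - y := by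
        rw [smul_sub]; abel
      rwa [e] at this
    have f1 := hact m _ e1
    have f2 := hact m _ e2
    rw [CC.act_add, CC.act_smul, smul_add] at f1
    rw [CC.act_sub, CC.act_smul, smul_sub] at f2
    set GP := s m • act (g m) (P m) with hGP
    set Gy := s m • act (g m) y with hGy
    have e3 : s m • (b * ‖y‖) • act (g m) (P m) = (b * ‖y‖) • GP := by
      rw [hGP, smul_smul, smul_smul, mul_comm]
    rw [e3] at f1 f2
    have f3 : (2 * (b * ‖y‖)) • GP - ((b * ‖y‖) • GP + Gy) ∈ closure C := by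
      have e : (2 * (b * ‖y‖)) • GP - ((b * ‖y‖) • GP + Gy) = (b * ‖y‖) • GP - Gy := by
        rw [two_mul, add_smul]; abel
      rwa [e]
    have n1 := hN _ _ f1 f3
    rw [norm_smul, Real.norm_of_nonneg (by positivity)] at n1
    have n2 : ‖Gy‖ ≤ ‖(b * ‖y‖) • GP + Gy‖ + ‖(b * ‖y‖) • GP‖ := by
      have e : Gy = ((b * ‖y‖) • GP + Gy) - (b * ‖y‖) • GP := by abel
      calc ‖Gy‖ = ‖((b * ‖y‖) • GP + Gy) - (b * ‖y‖) • GP‖ := by rw [← e]
        _ ≤ _ := norm_sub_le _ _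
    rw [norm_smul (b * ‖y‖) GP, Real.norm_of_nonneg hc] at n2
    have hGPD : ‖GP‖ ≤ D := hD' m
    have hy0 : 0 ≤ ‖y‖ := norm_nonneg y
    have n3 : B0 * (2 * (b * ‖y‖) * ‖GP‖) ≤ B0 * (2 * (b * ‖y‖) * D) := by
      gcongr
    have n4 : b * ‖y‖ * ‖GP‖ ≤ b * ‖y‖ * D := by gcongr
    calc ‖Gy‖ ≤ B0 * (2 * (b * ‖y‖) * D) + b * ‖y‖ * D := by linarith
      _ = (2 * B0 * b * D + b * D) * ‖y‖ := by ring
      _ ≤ _ := by nlinarith
  have hpos : 0 < 2 * B0 * b * D + b * D + 1 := by positivity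
  refine ⟨⟨_, hpos, first⟩, ?_⟩
  intro y y0 hy
  have hz : Tendsto (fun m => (2 * B0 * b * D + b * D + 1) * ‖y m - y0‖) atTop (𝓝 0) := by
    have h1 : Tendsto (fun m => ‖y m - y0‖) atTop (𝓝 0) := by
      have := (hy.sub_const y0).norm
      rwa [sub_self, norm_zero] at this
    simpa using h1.const_mul (2 * B0 * b * D + b * D + 1)
  exact squeeze_zero_norm (fun m => first m (y m - y0)) hz

end Pool.Agent.PCO.H70
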